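import Mathlib
import Pool.Agent.Lib.MP_4a1002_ag.Heis
import Pool.Agent.Lib.MP_4a1002_ag.Defs
import Pool.Agent.Lib.MP_4a1002_ag.Group
import Pool.Agent.Lib.MP_4a1002_ag.Orbit

/-!
# A maximal commutative unipotent subgroup with no open orbit on any variety

Over every algebraically closed field `K` of characteristic zero the free two-step nilpotent
unipotent group of rank three, `G = K³ × K³` with
`(v, w) * (v', w') = (v + v', w + w' + v × v')`, together with
`H = {(v, w) : v ∈ K e₁}`, answers MP_4a1002_ag in the negative.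
-/

open CategoryTheory AlgebraicGeometry MonoidalCategory CartesianMonoidalCategory MonObj
open Matrix
open Pool.Agent.Lib.MP_4a1002_ag

universe u

namespace Pool.Agent.Results.MP_4a1002_ag.NoOpenOrbit

/-- The abelian subgroup `{(v, w) : v ∈ K e₁}` of `Heis K`. -/
def H0 (K : Type u) [Field K] : Subgroup (Heis K) where
  carrier := {a | a.v 1 = 0 ∧ a.v 2 = 0}
  one_mem' := by simp
  mul_mem' := by
    rintro a b ⟨ha1, ha2⟩ ⟨hb1, hb2⟩
    simp [ha1, ha2, hb1, hb2]
  inv_mem' := by
    rintro a ⟨ha1, ha2⟩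
    simp [ha1, ha2]

/-- `Heis` only depends on the ring up to isomorphism. -/
def mapEquiv {R S : Type u} [CommRing R] [CommRing S] (e : R ≃+* S) : Heis R ≃* Heis S where
  toFun := Heis.map (e : R →+* S)
  invFun := Heis.map (e.symm : S →+* R)
  left_inv a := by ext i <;> simp
  right_inv a := by ext i <;> simp
  map_mul' := map_mul _

/-- The group of `K`-points is `Heis K`. -/
noncomputable def ptsEquiv (K : Type u) [Field K] : KPoints (A6 K) ≃* Heis K :=
  (pointsEquiv K _).trans (mapEquiv (Scheme.ΓSpecIso (CommRingCat.of K)).commRingCatIsoToRingEquiv)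

/-- The subgroup `H` of `G(K)`. -/
noncomputable def H (K : Type u) [Field K] : Subgroup (KPoints (A6 K)) :=
  (H0 K).comap (ptsEquiv K).toMonoidHom

lemma mem_H {K : Type u} [Field K] (g : KPoints (A6 K)) :
    g ∈ H K ↔ (ptsEquiv K g).v 1 = 0 ∧ (ptsEquiv K g).v 2 = 0 := Iff.rfl

lemma comm_iff {K : Type u} [Field K] [CharZero K] (a b : KPoints (A6 K)) :
    a * b = b * a ↔ crossProduct (ptsEquiv K a).v (ptsEquiv K b).v = 0 := by
  have : Invertible (2 : K) := invertibleOfNonzero two_ne_zero
  rw [← Heis.comm_iff, ← map_mul, ← map_mul, (ptsEquiv K).injective.eq_iff]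

lemma maximal_H (K : Type u) [Field K] [CharZero K] :
    Maximal (fun H' : Subgroup (KPoints (A6 K)) => ∀ a ∈ H', ∀ b ∈ H', a * b = b * a) (H K) := by
  refine ⟨?_, ?_⟩
  · intro a ha b hb
    rw [comm_iff, cross_apply]
    rw [mem_H] at ha hb
    ext i
    fin_cases i <;> simp [ha.1, ha.2, hb.1, hb.2]
  · intro H' hH' hle a ha
    have he : (ptsEquiv K).symm ⟨![1, 0, 0], 0⟩ ∈ H K := by
      rw [mem_H]; simp
    have h1 := hH' a ha _ (hle he)
    rw [comm_iff, cross_apply] at h1
    rw [mem_H]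
    have h2 := congrFun h1 2
    have h3 := congrFun h1 1
    simp at h2 h3
    exact ⟨h2, h3⟩

/-- Over every algebraically closed field `K` of characteristic zero there are a connected linear
algebraic group `G` and a commutative unipotent subgroup `H` of `G(K)`, maximal among the
commutative subgroups, such that no `H`-orbit on any variety `X` with an effective `G`-action is
open. -/
theorem result (K : Type u) [Field K] [IsAlgClosed K] [CharZero K] :
    ∃ (G : Over (Spec (CommRingCat.of K))) (_ : GrpObj G) (H : Subgroup (KPoints G)),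
      IsConnectedLinearAlgebraicGroup G ∧
      (∀ g ∈ H, IsUnipotentElement g) ∧
      Maximal (fun H' : Subgroup (KPoints G) => ∀ a ∈ H', ∀ b ∈ H', a * b = b * a) H ∧
      ∀ (X : Over (Spec (CommRingCat.of K))) (_ : ModObj G X), IsVariety X →
        (∀ g : KPoints G, (∀ x : KPoints X, g • x = x) → g = 1) →
        ∀ x : KPoints X, ¬ IsZariskiOpen (MulAction.orbit H x) := by
  refine ⟨A6 K, inferInstance, H K, isConnectedLinearAlgebraicGroup_A6 K,
    fun g _ => isUnipotentElement_A6 K g, maximal_H K, ?_⟩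
  intro X _ hX heff x hx
  have hcomm := (maximal_H K).1
  -- an element of `H` fixing `x` is trivial
  have key1 : ∀ k ∈ H K, k • x = x → k = 1 := fun k hk hkx =>
    heff k (act_trivial hX (H K) x hx k (fun h hh => hcomm k hk h hh) hkx)
  -- every `g` can be moved into the stabiliser of `x` without changing its class modulo `H`
  have key2 : ∀ g : KPoints (A6 K), ∃ c : KPoints (A6 K), c • x = x ∧
      (ptsEquiv K c).v 1 = (ptsEquiv K g).v 1 ∧ (ptsEquiv K c).v 2 = (ptsEquiv K g).v 2 := by
    intro g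
    obtain ⟨h₁, hh₁, h₂, hh₂, h⟩ := exists_mem_orbit hX (H K) x hx g
    refine ⟨h₂⁻¹ * (g * h₁), ?_, ?_, ?_⟩
    · rw [mul_smul, mul_smul, h, inv_smul_smul]
    · rw [mem_H] at hh₁ hh₂
      simp [hh₁.1, hh₂.1]
    · rw [mem_H] at hh₁ hh₂
      simp [hh₁.2, hh₂.2]
  obtain ⟨a, hax, ha1, ha2⟩ := key2 ((ptsEquiv K).symm ⟨![0, 1, 0], 0⟩)
  obtain ⟨b, hbx, hb1, hb2⟩ := key2 ((ptsEquiv K).symm ⟨![0, 0, 1], 0⟩)
  simp at ha1 ha2 hb1 hb2
  -- the commutator of `a` and `b` is in `H` and fixes `x`
  have hcH : a * b * (b * a)⁻¹ ∈ H K := by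
    rw [mem_H]; simp [ha1, ha2, hb1, hb2]
  have hcx : (a * b * (b * a)⁻¹) • x = x := by
    have h1 : (b * a) • x = x := by rw [mul_smul, hax, hbx]
    have h2 : (a * b) • x = x := by rw [mul_smul, hbx, hax]
    have h3 : (b * a)⁻¹ • x = x := by
      rw [inv_smul_eq_iff, h1]
    rw [mul_smul, h3, h2]
  have hab : a * b = b * a := by
    have := key1 _ hcH hcx
    rwa [mul_inv_eq_one] at this
  rw [comm_iff, cross_apply] at hab
  have h0 := congrFun hab 0
  simp [ha1, ha2, hb1, hb2] at h0

end Pool.Agent.Results.MP_4a1002_ag.NoOpenOrbit
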